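import Pool.Agent.Lib.MP_565f87_an.Cancel

/-!
A left cancellative monoid on which the units act freely from the left (for example a cancellative
monoid, or a left cancellative monoid with no unit besides the identity) is surjunctive exactly
when its group of units is.
-/

set_option autoImplicit false

namespace Pool.Agent.Results.MP_565f87_an.Cancellative

open Pool.Agent.Lib.MP_565f87_an.Loc Pool.Agent.Lib.MP_565f87_an

universe u v

theorem result (M : Type u) [Monoid M] [IsLeftCancelMul M]
    (hfree : ∀ (g : Mˣ) (m : M), (g : M) * m = m → g = 1) :
    Surjunctive.{u, v} M ↔ Surjunctive.{u, v} Mˣ :=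
  ⟨Surjunctive.units, surjunctive_of_units hfree⟩

end Pool.Agent.Results.MP_565f87_an.Cancellative
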