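import Pool.Agent.Lib.MP_565f87_an.Peel

/-!
A monoid each of whose finitely generated submonoids has only finite R-classes is surjunctive.
-/

set_option autoImplicit false

namespace Pool.Agent.Results.MP_565f87_an.FiniteR

open Pool.Agent.Lib.MP_565f87_an.Loc Pool.Agent.Lib.MP_565f87_an

universe u v

theorem result (M : Type u) [Monoid M]
    (h : ∀ (s : Finset M) (m : Submonoid.closure (s : Set M)), (RClass m).Finite) :
    Surjunctive.{u, v} M :=
  Loc.of_local M fun s => Or.inr (surjunctive_of_finite_RClass (h s))

end Pool.Agent.Results.MP_565f87_an.FiniteR
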